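import Pool.Agent.Y690.PP.Stm2
import Pool.Agent.Y427.PP.Fac

/-!
# Job PP2-CNT1: the even squarefree Gaussian integers
-/

set_option autoImplicit false
set_option linter.all false

open Finset

namespace Pool.Agent.Y37.PP

open Pool.Agent.Y690.PP Pool.Agent.Y690.PP.Fn Pool.Agent.Y427.PP

theorem nm_la : nm la = 2 := by
  have h := nm_eq la
  simp only [la] at h
  unfold la
  omega

theorem la_irr : Irreducible la := by
  refine ⟨?_, ?_⟩
  · intro h
    have := nm_unit.2 h
    rw [nm_la] at this
    omega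
  · intro a b hab
    have h1 : nm a * nm b = 2 := by rw [← nm_mul, ← hab, nm_la]
    have h2 : nm a ∣ 2 := ⟨nm b, h1.symm⟩
    rcases (Nat.dvd_prime Nat.prime_two).1 h2 with h3 | h3
    · exact Or.inl (nm_unit.1 h3)
    · right
      rw [h3] at h1
      exact nm_unit.1 (by omega)

theorem la_prime : Prime la := la_irr.prime

theorem la_dvd_iff (v : G) : la ∣ v ↔ (v.re + v.im) % 2 = 0 := by
  constructor
  · rintro ⟨w, rfl⟩
    simp [la]
    omega
  · intro h
    refine ⟨⟨(v.re + v.im) / 2, (v.im - v.re) / 2⟩, ?_⟩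
    ext
    · simp [la]
      omega
    · simp [la]
      omega

theorem prm_PA (A : Finset Pr) : Prm (PA A) := by
  classical
  unfold PA
  induction A using Finset.induction_on with
  | empty => simpa using prm_one
  | insert p A hp ih =>
    rw [Finset.prod_insert hp]
    exact prm_mul p.2.2 ih

theorem PA_ne_zero (A : Finset Pr) : PA A ≠ 0 := prm_ne_zero (prm_PA A)

theorem la_not_dvd (A : Finset Pr) : ¬ la ∣ PA A := by
  rw [la_dvd_iff]
  have := (prm_iff _).1 (prm_PA A)
  omega

theorem sqf_PA (A : Finset Pr) : Squarefree (PA A) := by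
  classical
  unfold PA
  induction A using Finset.induction_on with
  | empty => simpa using squarefree_one
  | insert p A hp ih =>
    rw [Finset.prod_insert hp, squarefree_mul_iff]
    refine ⟨?_, p.2.1.irreducible.squarefree, ih⟩
    rw [p.2.1.irreducible.isRelPrime_iff_not_dvd]
    exact not_dvd_prod p A hp

theorem sqf_laPA (A : Finset Pr) : Squarefree (la * PA A) := by
  rw [squarefree_mul_iff]
  refine ⟨?_, la_irr.squarefree, sqf_PA A⟩
  rw [la_irr.isRelPrime_iff_not_dvd]
  exact la_not_dvd A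

theorem t_CNT1 : SCNT1 := by
  intro D
  constructor
  · rintro ⟨hD, v, rfl⟩
    have hv : ¬ la ∣ v := by
      rintro ⟨w, rfl⟩
      have h1 : la * la ∣ la * (la * w) := ⟨w, by ring⟩
      exact la_prime.not_unit (hD la h1)
    rw [la_dvd_iff] at hv
    obtain ⟨p, hp, hpp⟩ := exists_assoc v (by omega)
    obtain ⟨t, A, ht, hA⟩ := fac1 (nm p) p le_rfl hpp
    have hpD : p ∣ la * v := (hp.symm.dvd).trans (dvd_mul_left v la)
    have htu : IsUnit t := by
      apply hD t
      refine dvd_trans ?_ hpD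
      rw [hA]
      exact ⟨∏ p ∈ A, p.1, by ring⟩
    have ht1 : t = 1 := prm_unit htu ht
    rw [ht1, one_pow, one_mul] at hA
    obtain ⟨w, hw⟩ := hp.symm
    refine ⟨(w : G), A, w.isUnit, ?_⟩
    unfold PA
    rw [← hA, ← hw]
    ring
  · rintro ⟨u, A, hu, rfl⟩
    refine ⟨?_, ⟨u * PA A, by ring⟩⟩
    have h1 : Associated (la * PA A) (u * la * PA A) := by
      obtain ⟨w, rfl⟩ := hu
      exact ⟨w, by ring⟩
    exact (h1.squarefree_iff).1 (sqf_laPA A)

theorem t_CNT2 : SCNT2 := by
  intro u u' A A' hu hu' h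
  have h1 : u * PA A = u' * PA A' := by
    apply mul_left_cancel₀ la_prime.ne_zero
    linear_combination h
  have h2 : PA A = PA A' := by
    have h3 : Associated (PA A) (u * PA A) := by
      obtain ⟨w, rfl⟩ := hu
      exact ⟨w, by ring⟩
    have h4 : Associated (PA A') (u' * PA A') := by
      obtain ⟨w, rfl⟩ := hu'
      exact ⟨w, by ring⟩
    rw [h1] at h3
    exact prm_assoc (h3.trans h4.symm) (prm_PA A) (prm_PA A')
  refine ⟨?_, ?_⟩
  · rw [h2] at h1
    exact mul_right_cancel₀ (PA_ne_zero A') h1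
  · unfold PA at h2
    apply Finset.Subset.antisymm
    · exact sub_of_eq 1 1 A A' prm_one (by rw [h2])
    · exact sub_of_eq 1 1 A' A prm_one (by rw [h2])

end Pool.Agent.Y37.PP
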